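import Pool.Agent.Helper53.CL.Final
import Pool.Agent.Helper82.CLK.Weyl
import Pool.Agent.Helper57.SOB.QFinal
import Pool.Agent.Helper57.BU.Final
import Pool.Agent.Helper61.CLB.Local
import Pool.Agent.Helper85.CL.Reg
import Pool.Agent.Helper85.CL.Unif

/-!
# The closing lemma for geodesic flows on closed surfaces: all blocks put together
-/

set_option maxSynthPendingDepth 3

namespace Pool.Agent.Helper82.CLF

open MeasureTheory Filter Topology Metric Pool.Agent.Helper82.GS Pool.Agent.Helper53.CL Pool.Agent.Helper53.CL.K
open scoped ContDiff Real Manifold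

universe u

theorem bu : BUprop := fun p => BU.not_genusLE_sphere le_rfl

theorem weylS (S : Type u) [TopologicalSpace S] [CompactSpace S] [T2Space S] [MeasurableSpace S] [BorelSpace S] :
    Iface.Weyl S := fun hS C =>
  haveI := hS
  CLK.weyl bu SOB.isESpace_HQ SOB.compStable_HQ C

theorem largeS (S : Type u) [TopologicalSpace S] [CompactSpace S] [T2Space S] [MeasurableSpace S] [BorelSpace S] :
    Iface.LargeS S := fun _ C => CLK.large_HS bu SOB.isESpace_HQ SOB.compStable_HQ C

theorem regS (S : Type u) [TopologicalSpace S] [CompactSpace S] [T2Space S] [MeasurableSpace S] [BorelSpace S] :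
    Iface.Reg S := Pool.Agent.Helper85.CL.reg (SOB.sob S) Pool.Agent.Helper61.CLB.locReg_holds

theorem unifS (S : Type u) [TopologicalSpace S] [CompactSpace S] [T2Space S] [MeasurableSpace S] [BorelSpace S] :
    Iface.Unif S := Pool.Agent.Helper85.CL.unif S Pool.Agent.Helper61.CLB.bnd1_holds

/-- The closing lemma. -/
theorem closing_lemma (S : Type u) [TopologicalSpace S] [CompactSpace S] [T2Space S] [ChartedSpace P2 S]
    [IsManifold (modelWithCornersSelf ℝ P2) ∞ S] :
    ∀ᶠ g in residual (Stmt.RMetric P2 S), Stmt.ClosedGeodesicsDense g := by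
  letI : MeasurableSpace S := borel S
  haveI : BorelSpace S := ⟨rfl⟩
  exact closing_of S Pool.Agent.Helper61.CLB.bnd2_holds (regS S) (unifS S) (weylS S) (largeS S)

end Pool.Agent.Helper82.CLF
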